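import Pool.Agent.W361.LQ.Stm

set_option autoImplicit false

open Filter Topology

namespace Pool.Agent.W381.LQ

open Pool.Agent.W361.LQ

noncomputable section

/-- the path of parameters -/
def ph (n : ℕ) (t : ℝ) : Pm :=
  ((t : UnitAddCircle), fun j => if j = n then 0 else 1, fun j => ((t / M j : ℝ) : UnitAddCircle))

lemma M_pos (j : ℕ) : (0 : ℝ) < M j := by
  have : 0 < M j := by unfold M; positivity
  exact_mod_cast this

lemma nsmul_div (m : ℕ) (hm : (0 : ℝ) < m) (t : ℝ) :
    m • ((t / m : ℝ) : UnitAddCircle) = (t : UnitAddCircle) := by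
  rw [← AddCircle.coe_nsmul, nsmul_eq_mul, mul_div_cancel₀ _ hm.ne']

lemma ph_mem {S : Set ℕ} {n : ℕ} (hn : n ∉ S) (t : ℝ) : ph n t ∈ K S := by
  intro j
  refine ⟨nsmul_div (M j) (M_pos j) t, fun hj => ?_⟩
  have : j ≠ n := fun h => hn (h ▸ hj)
  exact if_neg this

lemma dist_co (r : ℝ) (h0 : 0 ≤ r) (h1 : r ≤ 1) (w w' : UnitAddCircle) :
    dist (co r w) (co r w') ≤ ‖w - w'‖ := by
  have key : ∀ a b : UnitAddCircle, |r * ‖a‖ - r * ‖b‖| ≤ ‖a - b‖ := by
    intro a b
    rw [← mul_sub, abs_mul, abs_of_nonneg h0]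
    calc r * |‖a‖ - ‖b‖| ≤ 1 * ‖a - b‖ :=
          mul_le_mul h1 (abs_norm_sub_norm_le a b) (abs_nonneg _) zero_le_one
      _ = ‖a - b‖ := one_mul _
  unfold co
  rw [Prod.dist_eq, Prod.dist_eq, dist_self, Real.dist_eq, Real.dist_eq]
  refine max_le (norm_nonneg _) (max_le (key w w') ?_)
  refine (key _ _).trans_eq ?_
  congr 1
  abel

lemma dist_crd (n : ℕ) (s t : ℝ) (i : ℕ) : dist (crd (ph n s) i) (crd (ph n t) i) ≤ |s - t| := by
  unfold crd
  split_ifs with h
  · refine (dist_co 1 zero_le_one le_rfl _ _).trans ?_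
    change ‖(s : UnitAddCircle) - (t : UnitAddCircle)‖ ≤ _
    rw [← AddCircle.coe_sub]
    exact norm_coe_le _
  · rw [dist_smul₀]
    have h2 : ‖((1 : ℝ) / 2) ^ i‖ ≤ 1 := by
      rw [norm_pow]
      refine pow_le_one₀ (norm_nonneg _) ?_
      norm_num
    have h3 : dist (co ((ph n s).2.1 (i - 1) : ℝ) ((ph n s).2.2 (i - 1)))
        (co ((ph n t).2.1 (i - 1) : ℝ) ((ph n t).2.2 (i - 1))) ≤ |s - t| := by
      refine (dist_co _ ((ph n s).2.1 (i - 1)).2.1 ((ph n s).2.1 (i - 1)).2.2 _ _).trans ?_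
      change ‖((s / M (i - 1) : ℝ) : UnitAddCircle) - ((t / M (i - 1) : ℝ) : UnitAddCircle)‖ ≤ _
      rw [← AddCircle.coe_sub, ← sub_div]
      refine (norm_coe_le _).trans ?_
      rw [abs_div]
      refine div_le_self (abs_nonneg _) ?_
      rw [abs_of_pos (M_pos _)]
      have : 1 ≤ M (i - 1) := Nat.le_add_left 1 _
      exact_mod_cast this
    calc ‖((1 : ℝ) / 2) ^ i‖ * _ ≤ 1 * |s - t| :=
          mul_le_mul h2 h3 dist_nonneg zero_le_one
      _ = |s - t| := one_mul _

lemma cont_Phi (n : ℕ) : Continuous fun t : ℝ => Phi (ph n t) := by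
  have : LipschitzWith 1 fun t : ℝ => Phi (ph n t) := by
    refine LipschitzWith.of_dist_le_mul fun s t => ?_
    rw [NNReal.coe_one, one_mul, Real.dist_eq]
    rw [BoundedContinuousFunction.dist_le (abs_nonneg _)]
    intro i
    exact dist_crd n s t i
  exact this.continuous

/-- the special times -/
def tk (n k : ℕ) : ℕ := ∏ j ∈ (Finset.range k).erase n, M j

lemma coe_nat (m : ℕ) : (((m : ℝ)) : UnitAddCircle) = 0 := by
  rw [AddCircle.coe_eq_zero_iff]
  exact ⟨m, by simp⟩

lemma dist_tk (n k : ℕ) : dist (Phi (ph n (tk n k))) (Phi (ph n 0)) ≤ (1 / 2 : ℝ) ^ k := by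
  rw [BoundedContinuousFunction.dist_le (by positivity)]
  intro i
  change dist (crd (ph n (tk n k)) i) (crd (ph n 0) i) ≤ _
  rcases Nat.lt_or_ge k i with h | h
  · -- far coordinates
    have h1 := norm_crd_le' (ph n (tk n k)) i
    have h2 := norm_crd_le' (ph n 0) i
    have h3 : ((1 : ℝ) / 2) ^ i ≤ (1 / 2) ^ (k + 1) :=
      pow_le_pow_of_le_one (by norm_num) (by norm_num) h
    have h4 : ((1 : ℝ) / 2) ^ (k + 1) = (1 / 2) ^ k / 2 := by rw [pow_succ]; ring
    rw [dist_eq_norm]
    refine (norm_sub_le _ _).trans ?_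
    linarith
  · have hz : crd (ph n (tk n k)) i = crd (ph n 0) i := by
      unfold crd
      split_ifs with h0
      · have e : (ph n (tk n k)).1 = (ph n 0).1 := by
          change (((tk n k : ℕ) : ℝ) : UnitAddCircle) = ((0 : ℝ) : UnitAddCircle)
          rw [coe_nat, AddCircle.coe_zero]
        rw [e]
      · by_cases hi : i - 1 = n
        · have e1 : (((ph n (tk n k)).2.1 (i - 1) : unitInterval) : ℝ) = 0 := by
            change (((if i - 1 = n then 0 else 1 : unitInterval)) : ℝ) = 0
            rw [if_pos hi]; rfl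
          have e2 : (((ph n 0).2.1 (i - 1) : unitInterval) : ℝ) = 0 := by
            change (((if i - 1 = n then 0 else 1 : unitInterval)) : ℝ) = 0
            rw [if_pos hi]; rfl
          rw [e1, e2]
          unfold co
          simp
        · have e1 : (ph n (tk n k)).2.2 (i - 1) = (ph n 0).2.2 (i - 1) := by
            change ((((tk n k : ℕ) : ℝ) / M (i - 1) : ℝ) : UnitAddCircle) =
              (((0 : ℝ) / M (i - 1) : ℝ) : UnitAddCircle)
            have hd : M (i - 1) ∣ tk n k := by
              unfold tk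
              refine Finset.dvd_prod_of_mem _ ?_
              rw [Finset.mem_erase, Finset.mem_range]
              exact ⟨hi, by omega⟩
            obtain ⟨m, hm⟩ := hd
            have hM := M_pos (i - 1)
            have e3 : ((tk n k : ℕ) : ℝ) / M (i - 1) = (m : ℝ) := by
              rw [hm]; push_cast
              field_simp
            rw [e3, zero_div, coe_nat, AddCircle.coe_zero]
          rw [e1]
          rfl
    rw [hz, dist_self]
    positivity

theorem main : S_NON := by
  intro S f g n hf hg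
  by_contra hn
  -- the path in the space
  let p : ℝ → X S := fun t => pt S (ph n t) (ph_mem hn t)
  have hp : Continuous p := Continuous.subtype_mk (cont_Phi n) _
  let h : ℝ → UnitAddCircle := fun t => g (p t)
  have hh : Continuous h := g.continuous.comp hp
  have hM : (0 : ℝ) < M n := M_pos n
  have hhM : ∀ t : ℝ, M n • h t = (t : UnitAddCircle) := fun t => by
    change M n • g (p t) = _
    rw [hg, hf]
    rfl
  let u : ℝ → UnitAddCircle := fun t => h t - ((t / M n : ℝ) : UnitAddCircle)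
  have hu : Continuous u := by
    refine hh.sub ?_
    exact (AddCircle.continuous_mk' (1 : ℝ)).comp (continuous_id.div_const _)
  have huM : ∀ t, M n • u t = 0 := fun t => by
    change M n • (h t - ((t / M n : ℝ) : UnitAddCircle)) = 0
    rw [nsmul_sub, hhM, nsmul_div (M n) hM, sub_self]
  have hloc : IsLocallyConstant u := by
    rw [IsLocallyConstant.iff_eventually_eq]
    intro x
    have h1 : ∀ᶠ y in 𝓝 x, dist (u y) (u x) < 1 / (M n : ℝ) :=
      (hu.tendsto x).eventually (Metric.ball_mem_nhds _ (by positivity))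
    filter_upwards [h1] with y hy
    rw [dist_eq_norm] at hy
    have h2 : M n • (u y - u x) = 0 := by rw [nsmul_sub, huM, huM, sub_self]
    exact sub_eq_zero.1 (tor h2 hy)
  have hconst : ∀ t, u t = u 0 := fun t => hloc.apply_eq_of_preconnectedSpace t 0
  have hform : ∀ t, h t - h 0 = ((t / M n : ℝ) : UnitAddCircle) := fun t => by
    have h1 := hconst t
    change h t - ((t / M n : ℝ) : UnitAddCircle) = h 0 - (((0 : ℝ) / M n : ℝ) : UnitAddCircle) at h1
    rw [zero_div, AddCircle.coe_zero, sub_zero] at h1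
    rw [← h1]
    abel
  -- the special times
  have ht : Tendsto (fun k : ℕ => p (tk n k)) atTop (𝓝 (p 0)) := by
    rw [tendsto_iff_dist_tendsto_zero]
    refine squeeze_zero (fun _ => dist_nonneg) (fun k => dist_tk n k) ?_
    exact tendsto_pow_atTop_nhds_zero_of_lt_one (by norm_num) (by norm_num)
  have hg2 : Tendsto (fun k : ℕ => h (tk n k)) atTop (𝓝 (h 0)) :=
    (g.continuous.tendsto (p 0)).comp ht
  have hev : ∀ᶠ k : ℕ in atTop, dist (h (tk n k)) (h 0) < 1 / (M n : ℝ) :=
    hg2.eventually (Metric.ball_mem_nhds _ (by positivity))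
  obtain ⟨k, hk⟩ := hev.exists
  rw [dist_eq_norm, hform] at hk
  have h3 : M n • ((((tk n k : ℕ) : ℝ) / M n : ℝ) : UnitAddCircle) = 0 := by
    rw [nsmul_div (M n) hM, coe_nat]
  have h4 := tor h3 hk
  rw [AddCircle.coe_eq_zero_iff] at h4
  obtain ⟨m, hm⟩ := h4
  have h5 : ((tk n k : ℕ) : ℝ) = (M n : ℝ) * m := by
    have : (m : ℝ) = ((tk n k : ℕ) : ℝ) / M n := by simpa using hm
    rw [this]; field_simp
  have h6 : ((tk n k : ℕ) : ℤ) = (M n : ℤ) * m := by exact_mod_cast h5
  have h7 : M n ∣ tk n k := by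
    have : (M n : ℤ) ∣ ((tk n k : ℕ) : ℤ) := ⟨m, h6⟩
    exact_mod_cast this
  have h8 : Nat.Coprime (M n) (tk n k) := by
    unfold tk
    refine Nat.Coprime.prod_right fun j hj => ?_
    have hne : n ≠ j := (Finset.ne_of_mem_erase hj).symm
    exact Nat.coprime_fermatNumber_fermatNumber hne
  have h9 : M n = 1 := Nat.eq_one_of_dvd_coprimes h8 dvd_rfl h7
  have : 2 ≤ M n := by
    unfold M
    have : 0 < 2 ^ 2 ^ n := by positivity
    omega
  omega

end

end Pool.Agent.W381.LQ
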